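import Pool.Agent.helper97.NA.SpecE

/-!
# Row nx:XTI: the claim for the type `N`, with automorphisms
-/

set_option autoImplicit false

namespace Pool.Agent.NAB

open Pool.Agent.helper58.DC Pool.Agent.DI Pool.Agent.GR Pool.Agent.OB Pool.Agent.DR Pool.Agent.FI Pool.Agent.FI3 Pool.Agent.FI4 Pool.Agent.FI4I Pool.Agent.FI4E Pool.Agent.LE Pool.Agent.L5

theorem XTI_van {G : Type} [Group G] {N H : Subgroup G} (hH : H ≤ N) {ψ : G → ℂ} (hψ : ψ ∈ IrrOn H) :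
    ∀ x, x ∉ N → ψ x = 0 := fun x hx => hψ.1 x (fun h => hx (hH h))

theorem XTI (hNTK : NTK_stmt) (hTR1 : TR1_stmt) (hTR2 : TR2_stmt) (hTR3 : TR3_stmt) (hTR4 : TR4_stmt)
    (hTRA : TRA_stmt) (hTRE5 : TRE5_stmt) (hOUP5 : OUP5_stmt) (hTPR : Pool.Agent.FI.TPR_stmt) (hNEG : NEG_stmt)
    (_hB2 : B2_stmt) : XTI_stmt := by
  intro p e m n M hM G _ _ N hMN φ hφ z x hU β hβN hβE hSt hin
  obtain ⟨y₀, hy₀, hpow⟩ := hin
  have hφN : ∀ y, y ∉ N → φ y = 0 := XTI_van le_rfl hφ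
  have hφN' : ∀ y, y ∉ N → funMap β φ y = 0 := fun y hy =>
    hφN _ (fun h => hy (by rw [← hβN, mem_am]; exact h))
  have hE : Eg p e z ≤ N := (hNEG p e hM.pr G z).2.1 N hU.zm
  have htop : N.subgroupOf N = ⊤ := Subgroup.subgroupOf_self N
  have hK : N ⊓ nz (Eg p e z) ≤ N := inf_le_left
  obtain ⟨a1, a2, a3⟩ := hTR1 G N (N ⊓ nz (Eg p e z)) hK
  have hχ : rN N φ ∈ Irr N := by
    have h := ((hTR1 G N N le_rfl).1 φ hφN).1 hφ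
    rw [htop, (hTPR p M hM N).1] at h
    exact h
  have hU' : Ucl p e m M (⊤ : Subgroup N) (rN N φ) ⟨z, hU.zm⟩ ⟨x, hU.xm⟩ := by
    have h := (hNTK p e m M G N N le_rfl φ hφN ⟨z, hU.zm⟩ ⟨x, hU.xm⟩).2 hU
    rwa [htop] at h
  have hEg : ∀ y : N, Eg p e y = (Eg p e (y : G)).subgroupOf N := fun y =>
    ((hNEG p e hM.pr G z).2.2.2.2.2.2 N y).symm
  have hnz : nz (Eg p e (⟨z, hU.zm⟩ : N)) = (N ⊓ nz (Eg p e z)).subgroupOf N := by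
    rw [hEg, ((hTR3 p G N).1 (Eg p e z) hE).2, Subgroup.inf_subgroupOf_left]
  obtain ⟨β', hβ'⟩ := (hTRA G N β).1 hβN
  obtain ⟨-, -, tf, ts⟩ := (hTRA G N β).2 β' hβ'
  have hpow' := (hOUP5 G β n).2.2 N β' hβ' y₀ hy₀ hpow
  have hfix : am β' (Eg p e (⟨z, hU.zm⟩ : N)) = Eg p e ⟨z, hU.zm⟩ := by
    rw [hEg, ts _ hE, hβE]
  have hStb : Stb M (rN N φ) β' := by
    unfold Stb
    rw [(hTPR p M hM N).2.1, tf, ← htop]
    exact ((hTR2 G M N).2.1 N le_rfl _ _ hφN' hφN).1 hSt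
  have hL := hTRE5 p M hM G N N le_rfl φ hφN β β' hβ'
  rw [htop] at hL
  rw [← hL, hMN _ hχ _ _ hU' β' hfix hStb ⟨⟨y₀, hy₀⟩, hpow'⟩, hnz, hEg]
  unfold tB tS
  symm
  refine finsum_mem_eq_of_bijOn (rN N) ⟨?_, ?_, ?_⟩ ?_
  · rintro η ⟨hη, hs, z1, x1, h1, h2⟩
    refine ⟨(a1 η (XTI_van hK hη)).1 hη, ?_, ⟨z1, hK h1.zm⟩, ⟨x1, hK h1.xm⟩, ?_, ?_⟩
    · have h := ((hTR2 G M N).2.1 N le_rfl η φ (XTI_van hK hη) hφN).1 hs
      rwa [htop] at h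
    · exact (hNTK p e m M G N _ hK η (XTI_van hK hη) ⟨z1, hK h1.zm⟩ ⟨x1, hK h1.xm⟩).2 h1
    · rw [hEg, h2]
  · rintro η ⟨hη, -⟩ η' ⟨hη', -⟩ he
    exact a3 η η' (XTI_van hK hη) (XTI_van hK hη') he
  · rintro η' ⟨hη', hs, z1, x1, h1, h2⟩
    obtain ⟨η, hη, rfl⟩ := a2 η' hη'
    refine ⟨η, ⟨hη, ?_, (z1 : G), (x1 : G), ?_, ?_⟩, rfl⟩
    · refine ((hTR2 G M N).2.1 N le_rfl η φ (XTI_van hK hη) hφN).2 ?_
      rwa [htop]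
    · exact (hNTK p e m M G N _ hK η (XTI_van hK hη) z1 x1).1 h1
    · rw [hEg z1] at h2
      have h3 : Eg p e (z1 : G) ≤ N := (hNEG p e hM.pr G (z1 : G)).2.1 N z1.2
      have h4 := Subgroup.subgroupOf_inj.1 h2
      rwa [inf_eq_left.2 h3, inf_eq_left.2 hE] at h4
  · rintro η ⟨hη, -⟩
    rw [tf]
    exact ((hTR4 p G N _ hK (funMap β η) η).1).symm

end Pool.Agent.NAB
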